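import Mathlib

namespace Pool.Agent.Results.MP_2a6590_nt.Half

open Finset

/-- `A` is valid mod `N`. -/
def Valid {N : ℕ} (A : Finset (ZMod N)) : Prop :=
  ∀ m : ZMod N → ℕ, ∑ a ∈ A, m a = A.card → ∑ a ∈ A, (m a : ZMod N) * a = ∑ a ∈ A, a →
    ∀ a ∈ A, m a = 1

lemma key {N : ℕ} {A : Finset (ZMod N)} (hv : Valid A) {z : ZMod N} (hz : z ∈ A)
    {S T : Finset (ZMod N)} (hS : S ⊆ A.erase z) (hT : T ⊆ A.erase z) (k : ℕ)
    (hk : T.card = S.card + k) (h : ∑ a ∈ S, (a - z) = ∑ a ∈ T, (a - z)) : S = T := by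
  have hSA : S ⊆ A := hS.trans (erase_subset _ _)
  have hTA : T ⊆ A := hT.trans (erase_subset _ _)
  obtain ⟨m, hm⟩ : ∃ m : ZMod N → ℕ, ∀ a, m a + (if a ∈ T then 1 else 0) =
      1 + (if a ∈ S then 1 else 0) + (if a = z then k else 0) :=
    ⟨fun a => 1 + (if a ∈ S then 1 else 0) + (if a = z then k else 0) - (if a ∈ T then 1 else 0),
      fun a => by beta_reduce; split_ifs <;> omega⟩
  have h1 : ∑ a ∈ A, m a = A.card := by
    have := sum_congr (rfl : A = A) fun a _ => hm a
    simp only [sum_add_distrib, sum_ite_mem, inter_eq_right.2 hSA, inter_eq_right.2 hTA,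
      sum_ite_eq', hz, if_true, sum_const, smul_eq_mul, mul_one] at this
    omega
  have h2 : ∑ a ∈ A, (m a : ZMod N) * a = ∑ a ∈ A, a := by
    have h3 : ∀ a, (m a : ZMod N) * a + (if a ∈ T then a else 0) =
        a + (if a ∈ S then a else 0) + (if a = z then (k : ZMod N) * a else 0) := by
      intro a
      have := congrArg (fun t : ℕ => (t : ZMod N) * a) (hm a)
      split_ifs at this ⊢ <;> push_cast at this <;> linear_combination this
    have := sum_congr (rfl : A = A) fun a _ => h3 a
    simp only [sum_add_distrib, sum_ite_mem, inter_eq_right.2 hSA, inter_eq_right.2 hTA,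
      sum_ite_eq', hz, if_true] at this
    simp only [sum_sub_distrib, sum_const, nsmul_eq_mul, hk] at h
    push_cast at h
    linear_combination this + h
  have h4 := hv m h1 h2
  ext a
  by_cases ha : a ∈ A.erase z
  · have := hm a
    rw [h4 a (mem_erase.1 ha).2, if_neg (mem_erase.1 ha).1] at this
    split_ifs at this with p q q <;> simp_all
  · exact ⟨fun p => absurd (hS p) ha, fun p => absurd (hT p) ha⟩

theorem result (N n : ℕ) (hN : 1 ≤ N) (hn : 2 ≤ n) (A : Finset (ZMod N)) (hA : A.card = n)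
    (hv : Valid A) : 2 ^ (n - 1) ≤ N := by
  haveI : NeZero N := ⟨by omega⟩
  obtain ⟨z, hz⟩ := card_pos.1 (show 0 < A.card by omega)
  have h := card_le_card_of_injOn (s := (A.erase z).powerset) (t := (univ : Finset (ZMod N)))
    (fun S => ∑ a ∈ S, (a - z)) (fun _ _ => by simp) (by
      intro S hS T hT h
      have hS' := mem_powerset.1 (mem_coe.1 hS)
      have hT' := mem_powerset.1 (mem_coe.1 hT)
      rcases le_total S.card T.card with hh | hh
      · exact key hv hz hS' hT' (T.card - S.card) (by omega) h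
      · exact (key hv hz hT' hS' (S.card - T.card) (by omega) h.symm).symm)
  rwa [card_powerset, card_erase_of_mem hz, hA, card_univ, ZMod.card] at h

end Pool.Agent.Results.MP_2a6590_nt.Half
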